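import Pool.Agent.H20.HE.Stm

/-! A basis of a rank two module of vectors of polynomials which is independent at every point and
at infinity. -/

set_option autoImplicit false

namespace Pool.Agent.H24.HE

open Polynomial

variable {K : Type} [Field K] {n : ℕ}

/-- `a`, `b` are polynomial combinations of `a'`, `b'` -/
def Sp (a b a' b' : Fin n → K[X]) : Prop :=
  ∃ r : Fin 4 → K[X], (∀ i, a i = r 0 * a' i + r 1 * b' i) ∧ (∀ i, b i = r 2 * a' i + r 3 * b' i)

lemma Sp.swap {a b a' b' : Fin n → K[X]} (h : Sp a b a' b') : Sp a b b' a' := by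
  obtain ⟨r, h1, h2⟩ := h
  refine ⟨![r 1, r 0, r 3, r 2], fun i => ?_, fun i => ?_⟩
  · simp [h1 i]; ring
  · simp [h2 i]; ring

lemma Sp.left {a b a' b' c : Fin n → K[X]} (h : Sp a b a' b') (p q : K[X])
    (hc : ∀ i, a' i = p * c i + q * b' i) : Sp a b c b' := by
  obtain ⟨r, h1, h2⟩ := h
  refine ⟨![r 0 * p, r 0 * q + r 1, r 2 * p, r 2 * q + r 3], fun i => ?_, fun i => ?_⟩
  · simp [h1 i, hc i]; ring
  · simp [h2 i, hc i]; ring

lemma Sp.indep {a b a' b' : Fin n → K[X]} (h : Sp a b a' b') (hab : ∃ i j, a i * b j ≠ a j * b i)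
    (l m : K[X]) (h0 : ∀ i, l * a' i + m * b' i = 0) : l = 0 ∧ m = 0 := by
  obtain ⟨r, h1, h2⟩ := h
  obtain ⟨i, j, hij⟩ := hab
  have hd : a' i * b' j - a' j * b' i ≠ 0 := by
    intro hd
    apply hij
    rw [← sub_eq_zero, h1 i, h1 j, h2 i, h2 j]
    linear_combination (r 0 * r 3 - r 1 * r 2) * hd
  constructor
  · have : l * (a' i * b' j - a' j * b' i) = 0 := by
      linear_combination b' j * h0 i - b' i * h0 j
    exact (mul_eq_zero.1 this).resolve_right hd
  · have : m * (a' i * b' j - a' j * b' i) = 0 := by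
      linear_combination a' i * h0 j - a' j * h0 i
    exact (mul_eq_zero.1 this).resolve_right hd

/-- the degree bounds with sum `s` are possible -/
def Q (a b : Fin n → K[X]) (s : ℕ) : Prop :=
  ∃ (α β : ℕ) (a' b' : Fin n → K[X]), α + β = s ∧ (∀ i, (a' i).natDegree ≤ α) ∧
    (∀ i, (b' i).natDegree ≤ β) ∧ Sp a b a' b'

/-- dividing a vector which vanishes at `x` -/
lemma exists_div (f : Fin n → K[X]) (x : K) (hx : ∀ i, (f i).eval x = 0) (d : ℕ)
    (hd : ∀ i, (f i).natDegree ≤ d) :
    ∃ c : Fin n → K[X], (∀ i, f i = (X - C x) * c i) ∧ ∀ i, (c i).natDegree ≤ d - 1 := by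
  have : ∀ i, ∃ c : K[X], f i = (X - C x) * c ∧ c.natDegree ≤ d - 1 := by
    intro i
    have h1 : (X - C x) ∣ f i := dvd_iff_isRoot.2 (hx i)
    obtain ⟨c, hc⟩ := h1
    refine ⟨c, hc, ?_⟩
    by_cases h0 : c = 0
    · simp [h0]
    · have := natDegree_mul (X_sub_C_ne_zero x) h0
      rw [← hc, natDegree_X_sub_C] at this
      have := hd i
      omega
  choose c hc using this
  exact ⟨c, fun i => (hc i).1, fun i => (hc i).2⟩

lemma eq_zero_of_const {f : K[X]} (hd : f.natDegree ≤ 0) {x : K} (hx : f.eval x = 0) : f = 0 := by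
  rw [eq_C_of_natDegree_le_zero hd] at hx ⊢
  simpa using hx

lemma natDegree_comb {α β : ℕ} (hβ : β ≤ α) {f g : K[X]} (hf : f.natDegree ≤ α)
    (hg : g.natDegree ≤ β) (l m : K) : (C l * f + C m * g).natDegree ≤ α := by
  refine (natDegree_add_le _ _).trans (max_le ?_ ?_)
  · exact (natDegree_C_mul_le _ _).trans hf
  · exact (natDegree_C_mul_le _ _).trans (hg.trans hβ)

lemma natDegree_comb' {α β : ℕ} (hβ : β ≤ α) {f g : K[X]} (hf : f.natDegree ≤ α)
    (hg : g.natDegree ≤ β) (l m : K) : (C l * f + C m * X ^ (α - β) * g).natDegree ≤ α := by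
  refine (natDegree_add_le _ _).trans (max_le ?_ ?_)
  · exact (natDegree_C_mul_le _ _).trans hf
  · refine natDegree_mul_le.trans ?_
    have : (C m * X ^ (α - β) : K[X]).natDegree ≤ α - β := natDegree_C_mul_X_pow_le _ _
    omega

/-- a nonzero top coefficient is the only obstruction to a smaller degree -/
lemma natDegree_lt_of_coeff_eq_zero' {d : ℕ} (hd : 0 < d) {f : K[X]} (h : f.natDegree ≤ d)
    (h0 : f.coeff d = 0) : f.natDegree < d := by
  rcases h.lt_or_eq with h | h
  · exact h
  · exfalso
    have : f.leadingCoeff = 0 := by rw [leadingCoeff, h, h0]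
    rw [leadingCoeff_eq_zero] at this
    rw [this, natDegree_zero] at h
    omega

theorem basis : Pool.Agent.H20.HE.S_basis := by
  intro K _ n a b hab
  classical
  have hQ : ∃ s, Q a b s := by
    refine ⟨_, Finset.univ.sup (fun i => (a i).natDegree), Finset.univ.sup (fun i => (b i).natDegree),
      a, b, rfl, fun i => ?_, fun i => ?_, ![1, 0, 0, 1], ?_, ?_⟩
    · exact Finset.le_sup (f := fun i => (a i).natDegree) (Finset.mem_univ i)
    · exact Finset.le_sup (f := fun i => (b i).natDegree) (Finset.mem_univ i)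
    · intro i; simp
    · intro i; simp
  obtain ⟨α, β, a', b', hs, hα, hβ, hsp, hβα⟩ : ∃ (α β : ℕ) (a' b' : Fin n → K[X]),
      α + β = Nat.find hQ ∧ (∀ i, (a' i).natDegree ≤ α) ∧ (∀ i, (b' i).natDegree ≤ β) ∧
        Sp a b a' b' ∧ β ≤ α := by
    obtain ⟨α, β, a', b', hs, hα, hβ, hsp⟩ := Nat.find_spec hQ
    rcases le_total β α with h | h
    · exact ⟨α, β, a', b', hs, hα, hβ, hsp, h⟩
    · exact ⟨β, α, b', a', by omega, hβ, hα, hsp.swap, h⟩
  have hmin : ∀ (α' β' : ℕ) (a'' b'' : Fin n → K[X]), (∀ i, (a'' i).natDegree ≤ α') →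
      (∀ i, (b'' i).natDegree ≤ β') → Sp a b a'' b'' → α + β ≤ α' + β' := by
    intro α' β' a'' b'' h1 h2 h3
    rw [hs]
    exact Nat.find_min' hQ ⟨α', β', a'', b'', rfl, h1, h2, h3⟩
  have hind := hsp.indep hab
  obtain ⟨r, hr1, hr2⟩ := id hsp
  refine ⟨α, β, a', b', r, hβα, hα, hβ, hr1, hr2, ?_, ?_⟩
  · intro x l m h0
    by_cases hl : l = 0
    · subst hl
      refine ⟨rfl, ?_⟩
      by_contra hm
      have hb : ∀ i, (b' i).eval x = 0 := by
        intro i
        have := h0 i
        rw [zero_mul, zero_add] at this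
        exact (mul_eq_zero.1 this).resolve_left hm
      rcases Nat.eq_zero_or_pos β with hβ0 | hβ0
      · have : ∀ i, b' i = 0 := fun i => eq_zero_of_const (hβ0 ▸ hβ i) (hb i)
        have := (hind 0 1 (fun i => by simp [this i])).2
        exact one_ne_zero this
      · obtain ⟨c, hc1, hc2⟩ := exists_div b' x hb β hβ
        have h3 : Sp a b a' c := by
          refine (hsp.swap.left (X - C x) 0 (fun i => ?_)).swap
          rw [hc1 i]; ring
        have := hmin α (β - 1) a' c hα hc2 h3
        omega
    · exfalso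
      have hb : ∀ i, (C l * a' i + C m * b' i).eval x = 0 := by
        intro i
        simpa using h0 i
      rcases Nat.eq_zero_or_pos α with hα0 | hα0
      · have : ∀ i, C l * a' i + C m * b' i = 0 := fun i =>
          eq_zero_of_const (hα0 ▸ natDegree_comb hβα (hα i) (hβ i) l m) (hb i)
        have := (hind (C l) (C m) this).1
        exact hl (C_eq_zero.1 this)
      · obtain ⟨c, hc1, hc2⟩ := exists_div (fun i => C l * a' i + C m * b' i) x hb α
          (fun i => natDegree_comb hβα (hα i) (hβ i) l m)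
        have h3 : Sp a b c b' := by
          refine hsp.left (C l⁻¹ * (X - C x)) (- C l⁻¹ * C m) (fun i => ?_)
          have h4 : (C l⁻¹ * C l : K[X]) = 1 := by
            rw [← C_mul, inv_mul_cancel₀ hl, C_1]
          have h5 : C l * a' i + C m * b' i = (X - C x) * c i := hc1 i
          linear_combination (-a' i) * h4 + C l⁻¹ * h5
        have := hmin (α - 1) β c b' hc2 hβ h3
        omega
  · intro l m h0
    by_cases hl : l = 0
    · subst hl
      refine ⟨rfl, ?_⟩
      by_contra hm
      have hb : ∀ i, (b' i).coeff β = 0 := by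
        intro i
        have := h0 i
        rw [zero_mul, zero_add] at this
        exact (mul_eq_zero.1 this).resolve_left hm
      rcases Nat.eq_zero_or_pos β with hβ0 | hβ0
      · have : ∀ i, b' i = 0 := by
          intro i
          have h1 := hb i
          rw [hβ0] at h1
          have h2 : (b' i).natDegree ≤ 0 := hβ0 ▸ hβ i
          rw [eq_C_of_natDegree_le_zero h2, h1, C_0]
        have := (hind 0 1 (fun i => by simp [this i])).2
        exact one_ne_zero this
      · have hdeg : ∀ i, (b' i).natDegree ≤ β - 1 := by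
          intro i
          have := natDegree_lt_of_coeff_eq_zero' hβ0 (hβ i) (hb i)
          omega
        have := hmin α (β - 1) a' b' hα hdeg hsp
        omega
    · exfalso
      have hco : ∀ i, (C l * a' i + C m * X ^ (α - β) * b' i).coeff α = 0 := by
        intro i
        rw [coeff_add, coeff_C_mul, mul_assoc, coeff_C_mul, coeff_X_pow_mul', if_pos (by omega)]
        have : α - (α - β) = β := by omega
        rw [this]
        exact h0 i
      have h4 : (C l⁻¹ * C l : K[X]) = 1 := by
        rw [← C_mul, inv_mul_cancel₀ hl, C_1]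
      rcases Nat.eq_zero_or_pos α with hα0 | hα0
      · have : ∀ i, C l * a' i + (C m * X ^ (α - β)) * b' i = 0 := by
          intro i
          have h1 := hco i
          have h2 := natDegree_comb' hβα (hα i) (hβ i) l m
          rw [eq_C_of_natDegree_le_zero (h2.trans hα0.le)]
          rw [hα0] at h1
          rw [hα0, h1, C_0]
        have := (hind (C l) _ this).1
        exact hl (C_eq_zero.1 this)
      · have hdeg : ∀ i, (C l * a' i + C m * X ^ (α - β) * b' i).natDegree ≤ α - 1 := by
          intro i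
          have := natDegree_lt_of_coeff_eq_zero' hα0 (natDegree_comb' hβα (hα i) (hβ i) l m) (hco i)
          omega
        have h3 : Sp a b (fun i => C l * a' i + C m * X ^ (α - β) * b' i) b' := by
          refine hsp.left (C l⁻¹) (- C l⁻¹ * C m * X ^ (α - β)) (fun i => ?_)
          linear_combination (-a' i) * h4
        have := hmin (α - 1) β _ b' hdeg hβ h3
        omega

end Pool.Agent.H24.HE
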